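import Pool.Agent.Helper9.MP.Lat

set_option autoImplicit false

namespace Pool.Agent.Helper96.MP

theorem omb_ex : ∃ M : ℕ, ∀ q : ℕ, M ≤ q → (2 : ℝ) ≤ (q : ℝ) ^ (1 / 400 : ℝ) := by
  have h : Filter.Tendsto (fun q : ℕ => (q : ℝ) ^ (1 / 400 : ℝ)) Filter.atTop Filter.atTop :=
    (tendsto_rpow_atTop (by norm_num)).comp tendsto_natCast_atTop_atTop
  exact Filter.eventually_atTop.1 (h.eventually_ge_atTop 2)

/-- OMB: `2^ω(N) ≤ C N^(1/400)` -/
theorem st_OMB : ST_OMB := by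
  obtain ⟨M, hM⟩ := omb_ex
  refine ⟨2 ^ M, by positivity, ?_⟩
  intro N hN
  have h1 : ∀ p ∈ N.primeFactors,
      (2 : ℝ) ≤ (if p < M then (2 : ℝ) else 1) * (p : ℝ) ^ (1 / 400 : ℝ) := by
    intro p hp
    have hp1 : (1 : ℝ) ≤ (p : ℝ) := by exact_mod_cast (Nat.prime_of_mem_primeFactors hp).one_lt.le
    by_cases h : p < M
    · rw [if_pos h]
      have := Real.one_le_rpow hp1 (show (0 : ℝ) ≤ 1 / 400 by norm_num)
      linarith
    · rw [if_neg h, one_mul]
      exact hM p (not_lt.1 h)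
  have h2 : (2 : ℝ) ^ N.primeFactors.card ≤
      ∏ p ∈ N.primeFactors, ((if p < M then (2 : ℝ) else 1) * (p : ℝ) ^ (1 / 400 : ℝ)) := by
    rw [← Finset.prod_const]
    exact Finset.prod_le_prod (fun _ _ => by norm_num) h1
  refine h2.trans ?_
  rw [Finset.prod_mul_distrib]
  have h3 : ∏ p ∈ N.primeFactors, (if p < M then (2 : ℝ) else 1) ≤ 2 ^ M := by
    rw [← Finset.prod_filter, Finset.prod_const]
    refine pow_le_pow_right₀ (by norm_num) ?_
    calc (N.primeFactors.filter (fun p => p < M)).card ≤ (Finset.range M).card := by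
          refine Finset.card_le_card ?_
          intro p hp
          exact Finset.mem_range.2 (Finset.mem_filter.1 hp).2
      _ = M := Finset.card_range M
  have h4 : ∏ p ∈ N.primeFactors, (p : ℝ) ^ (1 / 400 : ℝ) ≤ (N : ℝ) ^ (1 / 400 : ℝ) := by
    rw [Real.finset_prod_rpow _ _ (fun p _ => Nat.cast_nonneg p)]
    refine Real.rpow_le_rpow (Finset.prod_nonneg fun p _ => Nat.cast_nonneg p) ?_ (by norm_num)
    have h5 : ∏ p ∈ N.primeFactors, p ≤ N := Nat.le_of_dvd hN (Nat.prod_primeFactors_dvd N)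
    have h6 : ((∏ p ∈ N.primeFactors, p : ℕ) : ℝ) ≤ (N : ℝ) := by exact_mod_cast h5
    rwa [Nat.cast_prod] at h6
  exact mul_le_mul h3 h4 (Finset.prod_nonneg fun p _ => by positivity) (by positivity)

end Pool.Agent.Helper96.MP
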