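import Pool.Agent.Helper9.MP.Lat

set_option autoImplicit false

namespace Pool.Agent.Helper96.MP

theorem smp_aux (k : ℕ) : ∃ S : Finset ℕ, S.card = k + 1 ∧ ∀ p ∈ S, p.Prime ∧ p ≤ 2 ^ (k + 1) := by
  induction k with
  | zero =>
    refine ⟨{2}, by simp, ?_⟩
    intro p hp
    rw [Finset.mem_singleton] at hp
    subst hp
    exact ⟨Nat.prime_two, by norm_num⟩
  | succ k ih =>
    obtain ⟨S, hS, hS2⟩ := ih
    obtain ⟨p, hp, h1, h2⟩ := Nat.exists_prime_lt_and_le_two_mul (2 ^ (k + 1)) (by positivity)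
    have hpS : p ∉ S := fun h => absurd (hS2 p h).2 (by omega)
    refine ⟨insert p S, by rw [Finset.card_insert_of_notMem hpS, hS], ?_⟩
    intro q hq
    have e : 2 ^ (k + 1 + 1) = 2 * 2 ^ (k + 1) := by ring
    rcases Finset.mem_insert.1 hq with rfl | hq
    · exact ⟨hp, by rw [e]; exact h2⟩
    · exact ⟨(hS2 q hq).1, (hS2 q hq).2.trans (by rw [e]; omega)⟩

/-- SMP: a small prime not dividing `N` -/
theorem st_SMP : ST_SMP := by
  intro N hN
  obtain ⟨S, hS, hS2⟩ := smp_aux N.primeFactors.card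
  have h : ∃ p ∈ S, p ∉ N.primeFactors := by
    by_contra hcon
    push Not at hcon
    have := Finset.card_le_card (show S ⊆ N.primeFactors from fun p hp => hcon p hp)
    omega
  obtain ⟨p, hp, hp2⟩ := h
  refine ⟨p, (hS2 p hp).1, ?_, (hS2 p hp).2⟩
  intro hd
  exact hp2 (Nat.mem_primeFactors.2 ⟨(hS2 p hp).1, hd, by omega⟩)

end Pool.Agent.Helper96.MP
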