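import Pool.Agent.Helper9.MP.Lat

set_option autoImplicit false

namespace Pool.Agent.Helper96.MP

theorem udc_prod (N : ℕ) (hN : N ≠ 0) (A : Finset ℕ) (hA : A ⊆ N.primeFactors) :
    (∏ p ∈ A, p ^ N.factorization p) * (∏ p ∈ N.primeFactors \ A, p ^ N.factorization p) = N := by
  rw [mul_comm, Finset.prod_sdiff hA]
  exact Nat.factorization_prod_pow_eq_self hN

theorem udc_cop (N : ℕ) (A B : Finset ℕ) (hA : A ⊆ N.primeFactors) (hB : B ⊆ N.primeFactors)
    (hAB : Disjoint A B) :
    Nat.Coprime (∏ p ∈ A, p ^ N.factorization p) (∏ p ∈ B, p ^ N.factorization p) := by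
  refine Nat.Coprime.prod_left ?_
  intro p hp
  refine Nat.Coprime.prod_right ?_
  intro q hq
  have hne : p ≠ q := by
    rintro rfl
    exact (Finset.disjoint_left.1 hAB hp) hq
  exact Nat.Coprime.pow _ _ ((Nat.coprime_primes (Nat.prime_of_mem_primeFactors (hA hp))
    (Nat.prime_of_mem_primeFactors (hB hq))).2 hne)

theorem udc_pf (N : ℕ) (A : Finset ℕ) (hA : A ⊆ N.primeFactors) :
    (∏ p ∈ A, p ^ N.factorization p).primeFactors = A := by
  have hne : ∀ p ∈ A, p ^ N.factorization p ≠ 0 := by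
    intro p hp
    exact pow_ne_zero _ (Nat.prime_of_mem_primeFactors (hA hp)).ne_zero
  ext q
  rw [Nat.mem_primeFactors]
  constructor
  · rintro ⟨hq, hd, _⟩
    obtain ⟨p, hp, hpq⟩ := (Prime.dvd_finset_prod_iff hq.prime _).1 hd
    have h1 := hq.dvd_of_dvd_pow hpq
    have h2 : q = p := (Nat.prime_dvd_prime_iff_eq hq
      (Nat.prime_of_mem_primeFactors (hA hp))).1 h1
    rw [h2]
    exact hp
  · intro hq
    have hqp := Nat.prime_of_mem_primeFactors (hA hq)
    refine ⟨hqp, ?_, Finset.prod_ne_zero_iff.2 hne⟩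
    refine dvd_trans ?_ (Finset.dvd_prod_of_mem (fun p => p ^ N.factorization p) hq)
    refine dvd_pow_self q ?_
    have h1 := Nat.mem_primeFactors.1 (hA hq)
    exact (hqp.factorization_pos_of_dvd h1.2.2 h1.2.1).ne'

/-- UDC: number of exact divisors -/
theorem st_UDC : ST_UDC := by
  intro N hN
  have hN0 : N ≠ 0 := by omega
  rw [← Finset.card_powerset]
  refine Finset.card_nbij' (fun Q => Q.primeFactors)
    (fun A => ∏ p ∈ A, p ^ N.factorization p) ?_ ?_ ?_ ?_
  · intro Q hQ
    have hQ' := Finset.mem_filter.1 (Finset.mem_coe.1 hQ)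
    exact Finset.mem_coe.2 (Finset.mem_powerset.2
      (Nat.primeFactors_mono (Nat.dvd_of_mem_divisors hQ'.1) hN0))
  · intro A hA
    have hA' := Finset.mem_powerset.1 (Finset.mem_coe.1 hA)
    refine Finset.mem_coe.2 (Finset.mem_filter.2 ⟨?_, ?_⟩)
    · refine Nat.mem_divisors.2 ⟨Dvd.intro _ (udc_prod N hN0 A hA'), hN0⟩
    · have h1 : N / (∏ p ∈ A, p ^ N.factorization p) =
          ∏ p ∈ N.primeFactors \ A, p ^ N.factorization p := by
        refine Nat.div_eq_of_eq_mul_right ?_ (udc_prod N hN0 A hA').symm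
        refine Nat.pos_of_ne_zero ?_
        intro h0
        have := udc_prod N hN0 A hA'
        rw [h0, zero_mul] at this
        omega
      show Nat.Coprime _ (N / (∏ p ∈ A, p ^ N.factorization p))
      rw [h1]
      exact udc_cop N A _ hA' Finset.sdiff_subset Finset.disjoint_sdiff
  · intro Q hQ
    have hQ' := Finset.mem_filter.1 (Finset.mem_coe.1 hQ)
    have hdv := Nat.dvd_of_mem_divisors hQ'.1
    have hQ0 : Q ≠ 0 := fun h => hN0 (Nat.eq_zero_of_zero_dvd (h ▸ hdv))
    show ∏ p ∈ Q.primeFactors, p ^ N.factorization p = Q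
    have h1 : ∀ p ∈ Q.primeFactors, p ^ N.factorization p = p ^ Q.factorization p := by
      intro p hp
      have hpp := Nat.prime_of_mem_primeFactors hp
      have hpQ := Nat.dvd_of_mem_primeFactors hp
      have h2 : N.factorization p = Q.factorization p + (N / Q).factorization p := by
        have h3 : N = Q * (N / Q) := (Nat.mul_div_cancel' hdv).symm
        have h4 : N / Q ≠ 0 := (Nat.div_pos (Nat.le_of_dvd hN hdv) (Nat.pos_of_ne_zero hQ0)).ne'
        conv_lhs => rw [h3]
        rw [Nat.factorization_mul hQ0 h4]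
        rfl
      have h5 : (N / Q).factorization p = 0 := by
        refine Nat.factorization_eq_zero_of_not_dvd ?_
        intro h6
        exact hpp.one_lt.ne' (Nat.eq_one_of_dvd_coprimes hQ'.2 hpQ h6)
      rw [h2, h5, add_zero]
    rw [Finset.prod_congr rfl h1]
    exact Nat.factorization_prod_pow_eq_self hQ0
  · intro A hA
    exact udc_pf N A (Finset.mem_powerset.1 (Finset.mem_coe.1 hA))

end Pool.Agent.Helper96.MP
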